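import Pool.Agent.Q61.PA6

/-!
# A renorming of `ℓ₂` with a conditional Schauder basis having Property (A)
-/

set_option autoImplicit false

open Finset Filter Topology

namespace Pool.Agent.Results.MP_2eb999_an.ConditionalPropertyARenorming

variable {𝕜 : Type*} [RCLike 𝕜] {V : Type*} [AddCommGroup V] [Module 𝕜 V]

/-- The series `∑ g n` converges to `z` for the norm `N`. -/
def ConvTo (N : Seminorm 𝕜 V) (g : ℕ → V) (z : V) : Prop :=
  Tendsto (fun m => N (∑ n ∈ range m, g n - z)) atTop (𝓝 0)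

/-- The series `∑ g n` converges unconditionally to `z` for the norm `N`: the net of all finite
partial sums converges to `z`. -/
def UncondTo (N : Seminorm 𝕜 V) (g : ℕ → V) (z : V) : Prop :=
  ∀ ε > 0, ∃ F : Finset ℕ, ∀ G : Finset ℕ, F ⊆ G → N (∑ n ∈ G, g n - z) < ε

/-- `x` is a Schauder basis for the norm `N`. -/
def IsSchauderBasis (N : Seminorm 𝕜 V) (x : ℕ → V) : Prop :=
  ∀ z : V, ∃! a : ℕ → 𝕜, ConvTo N (fun n => a n • x n) z

/-- Every convergent expansion converges unconditionally. -/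
def IsUnconditional (N : Seminorm 𝕜 V) (x : ℕ → V) : Prop :=
  ∀ (z : V) (a : ℕ → 𝕜), ConvTo N (fun n => a n • x n) z → UncondTo N (fun n => a n • x n) z

/-- The coefficient sequence `b` is a greedy rearrangement of the coefficient sequence `a`. -/
def IsGreedyRearrangement (a b : ℕ → 𝕜) : Prop :=
  ∃ π : Equiv.Perm ℕ, (∀ n, ‖b (π n)‖ = ‖a n‖) ∧
    ∀ k, 0 < ‖a k‖ → ‖a k‖ < ⨆ n, ‖a n‖ → π k = k ∧ b k = a k

/-- Property (A) of the basis `x` for the norm `N`. -/
def PropertyA (N : Seminorm 𝕜 V) (x : ℕ → V) : Prop :=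
  ∀ (z w : V) (a b : ℕ → 𝕜), ConvTo N (fun n => a n • x n) z → ConvTo N (fun n => b n • x n) w →
    IsGreedyRearrangement a b → N z = N w

/-- The norm `N` is equivalent to the given norm. -/
def IsEquivalentNorm {X : Type*} [NormedAddCommGroup X] [NormedSpace 𝕜 X] (N : Seminorm 𝕜 X) :
    Prop := ∃ c C : ℝ, 0 < c ∧ ∀ v, c * ‖v‖ ≤ N v ∧ N v ≤ C * ‖v‖

/-- The normed space `X` has an equivalent norm and a conditional Schauder basis which has
Property (A) for this norm. -/
def HasConditionalPropertyARenorming (𝕜 X : Type*) [RCLike 𝕜] [NormedAddCommGroup X]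
    [NormedSpace 𝕜 X] : Prop :=
  ∃ N : Seminorm 𝕜 X, IsEquivalentNorm N ∧
    ∃ x : ℕ → X, IsSchauderBasis N x ∧ ¬ IsUnconditional N x ∧ PropertyA N x

/-- **Theorem.** Over `ℝ` and over `ℂ` there is a norm on `ℓ₂`, equivalent to the usual one, for
which `ℓ₂` has a conditional Schauder basis with Property (A). -/
theorem result (𝕜 : Type*) [RCLike 𝕜] :
    HasConditionalPropertyARenorming 𝕜 (lp (fun _ : ℕ => 𝕜) 2) := by
  obtain ⟨N, x, f, c, C, hc, hN, h1, h2, ⟨z₀, hz₀⟩, h3⟩ := Q61.PA.main 𝕜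
  -- convergence for `N` is convergence for the usual norm
  have hconv : ∀ (g : ℕ → lp (fun _ : ℕ => 𝕜) 2) (z : lp (fun _ : ℕ => 𝕜) 2),
      ConvTo N g z ↔ Tendsto (fun m => ∑ n ∈ range m, g n) atTop (𝓝 z) := by
    intro g z
    rw [tendsto_iff_norm_sub_tendsto_zero, ConvTo]
    constructor
    · intro h
      have h4 : Tendsto (fun m => c⁻¹ * N (∑ n ∈ range m, g n - z)) atTop (𝓝 0) := by
        simpa using h.const_mul c⁻¹
      refine squeeze_zero (fun m => norm_nonneg _) (fun m => ?_) h4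
      rw [le_inv_mul_iff₀ hc]
      exact (hN _).1
    · intro h
      have h4 : Tendsto (fun m => C * ‖∑ n ∈ range m, g n - z‖) atTop (𝓝 0) := by
        simpa using h.const_mul C
      exact squeeze_zero (fun m => apply_nonneg _ _) (fun m => (hN _).2) h4
  have h1' : ∀ z, ConvTo N (fun n => f n z • x n) z := fun z => (hconv _ _).2 (h1 z)
  have h2' : ∀ z (a : ℕ → 𝕜), ConvTo N (fun n => a n • x n) z → a = fun k => f k z :=
    fun z a h => funext (h2 z a ((hconv _ _).1 h))
  refine ⟨N, ⟨c, C, hc, hN⟩, x, fun z => ⟨fun n => f n z, h1' z, h2' z⟩, fun hun => hz₀ ?_, ?_⟩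
  · -- unconditional convergence would give summability
    have h4 := hun z₀ _ (h1' z₀)
    refine ⟨z₀, ?_⟩
    rw [HasSum, SummationFilter.unconditional_filter, Metric.tendsto_atTop]
    intro ε hε
    obtain ⟨F, hF⟩ := h4 (c * ε) (mul_pos hc hε)
    refine ⟨F, fun G hG => ?_⟩
    rw [dist_eq_norm]
    have h5 := hF G hG
    exact lt_of_mul_lt_mul_left ((hN _).1.trans_lt h5) hc.le
  · rintro z w a b ha hb ⟨π, hπ1, hπ2⟩
    obtain rfl := h2' z a ha
    obtain rfl := h2' w b hb
    exact h3 z w π hπ1 hπ2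

end Pool.Agent.Results.MP_2eb999_an.ConditionalPropertyARenorming
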